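import Pool.Agent.W670.LL.Stm

/-!
# The inseparable points of degree `q` (S_CL)
-/

set_option autoImplicit false

namespace Pool.Agent.W672.LL

open WeierstrassCurve Polynomial
open Pool.Agent.W670.LL

/-- `X² + 6 X - 3` -/
noncomputable def P2 (k : Type) [Field k] : k[X] := X ^ 2 + C 6 * X - C 3

theorem P2_deg (k : Type) [Field k] : (P2 k).natDegree = 2 := by
  unfold P2
  compute_degree!

theorem P2_ne (k : Type) [Field k] : P2 k ≠ 0 := by
  intro h
  have := P2_deg k
  rw [h] at this
  simp at this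

theorem P2_irr {k : Type} [Field k] (h2 : (2 : k) ≠ 0) (h3 : ¬ IsSquare (3 : k)) :
    Irreducible (P2 k) := by
  apply Polynomial.irreducible_of_degree_le_three_of_not_isRoot
  · rw [P2_deg]; simp
  · intro x hx
    apply h3
    have h : x ^ 2 + 6 * x - 3 = 0 := by
      have := hx
      unfold P2 at this
      simpa using this
    refine ⟨(x + 3) / 2, ?_⟩
    field_simp
    linear_combination -h

theorem key {k : Type} [Field k] (h2 : (2 : k) ≠ 0) (h3 : ¬ IsSquare (3 : k)) (N D y : k[X])
    (hN : N ≠ 0) (hD : D ≠ 0) (hdeg : max N.natDegree D.natDegree = 1)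
    (h : (X * P2 k) * D * (N * (N ^ 2 + C 6 * N * D - C 3 * D ^ 2)) = y ^ 2) :
    (∃ a : k, a ≠ 0 ∧ N = C a * X ∧ D = C a) ∨
      (∃ c : k, c ≠ 0 ∧ N = C (-3 * c) ∧ D = C c * X) := by
  have h30 : (3 : k) ≠ 0 := fun h => h3 (h ▸ ⟨0, by simp⟩)
  have h6 : (6 : k) ≠ 0 := by
    have : (6 : k) = 2 * 3 := by norm_num
    rw [this]; exact mul_ne_zero h2 h30
  have hpr : Prime (P2 k) := (P2_irr h2 h3).prime
  have hP0 := P2_ne k
  have hP2 := P2_deg k
  have hN1 : N.natDegree ≤ 1 := by rw [← hdeg]; exact le_max_left _ _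
  have hD1 : D.natDegree ≤ 1 := by rw [← hdeg]; exact le_max_right _ _
  set M := N ^ 2 + C 6 * N * D - C 3 * D ^ 2 with hM
  have hy : P2 k ∣ y := by
    apply hpr.dvd_of_dvd_pow (n := 2)
    rw [← h]
    exact ⟨X * D * (N * M), by ring⟩
  obtain ⟨y1, hy1⟩ := hy
  have h1 : X * D * N * M = P2 k * y1 ^ 2 := by
    apply mul_left_cancel₀ hP0
    rw [hy1] at h
    linear_combination h
  have hd : P2 k ∣ X * D * N * M := ⟨_, h1⟩
  have nd : ∀ p : k[X], p ≠ 0 → p.natDegree ≤ 1 → ¬ P2 k ∣ p := by
    intro p hp hp1 hdv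
    have := Polynomial.natDegree_le_of_dvd hdv hp
    omega
  have hPM : P2 k ∣ M := by
    rcases hpr.dvd_or_dvd hd with hd | hd
    · rcases hpr.dvd_or_dvd hd with hd | hd
      · rcases hpr.dvd_or_dvd hd with hd | hd
        · exact absurd hd (nd X X_ne_zero natDegree_X_le)
        · exact absurd hd (nd D hD hD1)
      · exact absurd hd (nd N hN hN1)
    · exact hd
  obtain ⟨Q, hQ⟩ := hPM
  have eN := Polynomial.eq_X_add_C_of_natDegree_le_one hN1
  have eD := Polynomial.eq_X_add_C_of_natDegree_le_one hD1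
  set a := N.coeff 1 with ha
  set b := N.coeff 0 with hb
  set c := D.coeff 1 with hc
  set d := D.coeff 0 with hd'
  have hMdeg : M.natDegree ≤ 2 := by
    rw [hM, eN, eD]
    compute_degree
  obtain ⟨m, hm⟩ : ∃ m, Q = C m := by
    by_cases hM0 : M = 0
    · refine ⟨0, ?_⟩
      rw [hM0] at hQ
      rcases mul_eq_zero.1 hQ.symm with h | h
      · exact absurd h hP0
      · rw [h]; simp
    · have hQ0 : Q ≠ 0 := by
        rintro rfl
        exact hM0 (by rw [hQ, mul_zero])
      have := Polynomial.natDegree_mul hP0 hQ0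
      rw [← hQ, hP2] at this
      exact ⟨Q.coeff 0, Polynomial.eq_C_of_natDegree_eq_zero (by omega)⟩
  rw [hm] at hQ
  have ev : ∀ x : k, (a * x + b) ^ 2 + 6 * (a * x + b) * (c * x + d) - 3 * (c * x + d) ^ 2 =
      (x ^ 2 + 6 * x - 3) * m := by
    intro x
    have := congrArg (Polynomial.eval x) hQ
    rw [hM, eN, eD] at this
    unfold P2 at this
    simpa using this
  have E0 := ev 0
  have E1 := ev 1
  have E2 := ev (-1)
  have c0 : b ^ 2 + 6 * b * d - 3 * d ^ 2 = -3 * m := by linear_combination E0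
  have c2 : a ^ 2 + 6 * a * c - 3 * c ^ 2 = m := by
    apply mul_left_cancel₀ h2
    linear_combination E1 + E2 - 2 * E0
  have c1 : 2 * a * b + 6 * (a * d + b * c) - 6 * c * d = 6 * m := by
    apply mul_left_cancel₀ h2
    linear_combination E1 - E2
  have hm0 : m ≠ 0 := by
    rintro rfl
    have hc0 : c = 0 := by
      by_contra hc0
      apply h3
      refine ⟨(a + 3 * c) / (2 * c), ?_⟩
      field_simp
      linear_combination -c2
    have ha0 : a = 0 := by
      rw [hc0] at c2
      have : a ^ 2 = 0 := by linear_combination c2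
      exact pow_eq_zero_iff (by norm_num) |>.1 this
    have n1 : N.natDegree = 0 := by
      rw [eN, ha0]; simp
    have n2 : D.natDegree = 0 := by
      rw [eD, hc0]; simp
    rw [n1, n2] at hdeg
    simp at hdeg
  have h4 : X * D * N * C m = y1 ^ 2 := by
    apply mul_left_cancel₀ hP0
    rw [hQ] at h1
    linear_combination h1
  have hpar : 1 + D.natDegree + N.natDegree = 2 * y1.natDegree := by
    have := congrArg Polynomial.natDegree h4
    rw [Polynomial.natDegree_mul (mul_ne_zero (mul_ne_zero X_ne_zero hD) hN) (C_ne_zero.2 hm0),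
      Polynomial.natDegree_mul (mul_ne_zero X_ne_zero hD) hN,
      Polynomial.natDegree_mul X_ne_zero hD, natDegree_X, natDegree_C, natDegree_pow] at this
    omega
  have hz : y1.eval 0 = 0 := by
    have := congrArg (Polynomial.eval 0) h4
    simp only [eval_mul, eval_X, zero_mul, eval_pow] at this
    exact pow_eq_zero_iff (by norm_num) |>.1 this.symm
  have hXy : X ∣ y1 := by
    rw [Polynomial.X_dvd_iff, Polynomial.coeff_zero_eq_eval_zero]; exact hz
  obtain ⟨y2, hy2⟩ := hXy
  have h5 : D * N * C m = X * y2 ^ 2 := by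
    apply mul_left_cancel₀ (X_ne_zero (R := k))
    rw [hy2] at h4
    linear_combination h4
  have h6' : d * b * m = 0 := by
    have := congrArg (Polynomial.eval 0) h5
    rw [eN, eD] at this
    simpa using this
  have h7 : d * b = 0 := (mul_eq_zero.1 h6').resolve_right hm0
  rcases Nat.lt_or_ge D.natDegree 1 with hD0 | hD0
  · -- `D` constant
    left
    have hD00 : D.natDegree = 0 := by omega
    have hc0 : c = 0 := by
      rw [hc]; exact Polynomial.coeff_eq_zero_of_natDegree_lt (by omega)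
    have hd0 : d ≠ 0 := by
      intro hd0
      apply hD
      rw [eD, hc0, hd0]; simp
    have hb0 : b = 0 := (mul_eq_zero.1 h7).resolve_left hd0
    rw [hb0] at c0
    rw [hc0, hb0] at c1
    have e1 : d ^ 2 = m := by
      apply mul_left_cancel₀ h30
      linear_combination -c0
    have e2 : a * d = m := by
      apply mul_left_cancel₀ h6
      linear_combination c1
    have e3 : a = d := by
      apply mul_right_cancel₀ hd0
      linear_combination e2 - e1
    refine ⟨a, by rw [e3]; exact hd0, ?_, ?_⟩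
    · rw [eN, hb0]; simp
    · rw [eD, hc0, e3]; simp
  · right
    have hD01 : D.natDegree = 1 := by omega
    have hN0 : N.natDegree = 0 := by omega
    have ha0 : a = 0 := by
      rw [ha]; exact Polynomial.coeff_eq_zero_of_natDegree_lt (by omega)
    have hb0 : b ≠ 0 := by
      intro hb0
      apply hN
      rw [eN, ha0, hb0]; simp
    have hd0 : d = 0 := (mul_eq_zero.1 h7).resolve_right hb0
    have hc0 : c ≠ 0 := by
      intro hc0
      apply hD
      rw [eD, hc0, hd0]; simp
    rw [ha0, hd0] at c1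
    rw [ha0] at c2
    have e1 : b * c = m := by
      apply mul_left_cancel₀ h6
      linear_combination c1
    have e3 : b = -3 * c := by
      apply mul_right_cancel₀ hc0
      linear_combination e1 - c2
    refine ⟨c, hc0, ?_, ?_⟩
    · rw [eN, ha0, ← e3]; simp
    · rw [eD, hd0]; simp

/-- a polynomial whose image is a square in `k(t)` is a square -/
theorem sq_of_ratfunc {k : Type} [Field k] (p : k[X]) (z : RatFunc k)
    (h : algebraMap k[X] (RatFunc k) p = z ^ 2) : ∃ y : k[X], p = y ^ 2 := by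
  have hint : _root_.IsIntegral k[X] (z ^ 2) := by rw [← h]; exact isIntegral_algebraMap
  have hz : _root_.IsIntegral k[X] z := _root_.IsIntegral.of_pow (by norm_num) hint
  obtain ⟨y, hy⟩ := IsIntegrallyClosed.isIntegral_iff.1 hz
  refine ⟨y, ?_⟩
  apply RatFunc.algebraMap_injective k
  rw [h, map_pow, hy]

theorem ratfunc_C_ofNat (k : Type) [Field k] (n : ℕ) [n.AtLeastTwo] :
    algebraMap k[X] (RatFunc k) (C (OfNat.ofNat n : k)) = (OfNat.ofNat n : RatFunc k) := by
  rw [RatFunc.algebraMap_C]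
  exact map_ofNat _ n

theorem lam_eq (k : Type) [Field k] :
    lam k = algebraMap k[X] (RatFunc k) (X * P2 k) := by
  unfold lam P2
  rw [map_mul, map_sub, map_add, map_mul, map_pow, ratfunc_C_ofNat, ratfunc_C_ofNat,
    RatFunc.algebraMap_X]
  ring

theorem lam_ne (k : Type) [Field k] : lam k ≠ 0 := by
  rw [lam_eq]
  intro h
  have := (map_eq_zero_iff _ (RatFunc.algebraMap_injective k)).1 h
  rcases mul_eq_zero.1 this with h | h
  · exact X_ne_zero h
  · exact P2_ne k h

theorem gcl {k : Type} [Field k] (h2 : (2 : k) ≠ 0) (h3 : ¬ IsSquare (3 : k)) (g z : RatFunc k)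
    (hg : Hr g = 1) (h : lam k * (g ^ 3 + 6 * g ^ 2 - 3 * g) = z ^ 2) :
    g = RatFunc.X ∨ g = -3 / RatFunc.X := by
  have hD : g.denom ≠ 0 := RatFunc.denom_ne_zero g
  have hN : g.num ≠ 0 := by
    intro h0
    have hg0 : g = 0 := by
      rw [← RatFunc.num_div_denom g, h0]; simp
    unfold Hr at hg
    rw [hg0] at hg
    simp at hg
  have hnd := RatFunc.num_div_denom g
  set N := g.num with hNdef
  set D := g.denom with hDdef
  have hDm : algebraMap k[X] (RatFunc k) D ≠ 0 := by
    intro h0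
    exact hD ((map_eq_zero_iff _ (RatFunc.algebraMap_injective k)).1 h0)
  have hgm : g * algebraMap k[X] (RatFunc k) D = algebraMap k[X] (RatFunc k) N := by
    rw [← hnd]; field_simp
  obtain ⟨y, hy⟩ := sq_of_ratfunc ((X * P2 k) * D * (N * (N ^ 2 + C 6 * N * D - C 3 * D ^ 2)))
    (z * algebraMap k[X] (RatFunc k) D ^ 2) (by
      rw [map_mul, map_mul, ← lam_eq, map_mul, map_sub, map_add, map_mul, map_mul, map_mul,
        map_pow, map_pow, ratfunc_C_ofNat, ratfunc_C_ofNat, ← hgm]
      linear_combination (algebraMap k[X] (RatFunc k) D) ^ 4 * h)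
  rcases key h2 h3 N D y hN hD hg hy with ⟨a, ha, e1, e2⟩ | ⟨c, hc, e1, e2⟩
  · left
    have hca : RatFunc.C a ≠ 0 := by
      intro h0; exact ha ((map_eq_zero_iff _ (RatFunc.C_injective)).1 h0)
    rw [← hnd, e1, e2, map_mul, RatFunc.algebraMap_C, RatFunc.algebraMap_X]
    field_simp
  · right
    have hcc : RatFunc.C c ≠ 0 := by
      intro h0; exact hc ((map_eq_zero_iff _ (RatFunc.C_injective)).1 h0)
    have hX : (RatFunc.X : RatFunc k) ≠ 0 := RatFunc.X_ne_zero
    have e3 : algebraMap k[X] (RatFunc k) (C (-3 * c)) = -3 * RatFunc.C c := by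
      rw [RatFunc.algebraMap_C, map_mul, map_neg, map_ofNat]
    rw [← hnd, e1, e2, e3, map_mul, RatFunc.algebraMap_C, RatFunc.algebraMap_X]
    field_simp

theorem some_eq {K : Type} [Field K] {a b : K} {x y x' y' : K} (h : (Cv a b).Nonsingular x y)
    (h' : (Cv a b).Nonsingular x' y') (ex : x = x') (ey : y = y') :
    (Affine.Point.some x y h : Pt a b) = Affine.Point.some x' y' h' := by
  subst ex; subst ey; rfl

theorem cl : S_CL := by
  intro q hq _ hq3 h3 R Φ T g hR hgx hg hΦ hT
  have hqp : q.Prime := hq.out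
  have h2 : (2 : ZMod q) ≠ 0 := by
    intro h
    have : ((2 : ℕ) : ZMod q) = 0 := by exact_mod_cast h
    rw [ZMod.natCast_eq_zero_iff] at this
    have := Nat.le_of_dvd (by norm_num) this
    omega
  have hL : lam (ZMod q) ≠ 0 := lam_ne _
  have : CharP (RatFunc (ZMod q)) q :=
    charP_of_injective_algebraMap (algebraMap (ZMod q) (RatFunc (ZMod q))).injective q
  obtain ⟨n, hn⟩ : ∃ n, q = 2 * n + 1 := by
    rcases hqp.eq_two_or_odd' with h | h
    · omega
    · exact h
  have hn2 : (q - 1) / 2 = n := by omega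
  rw [hn2] at hΦ
  obtain ⟨hΦn, hΦ⟩ := hΦ
  obtain ⟨hTn, hT⟩ := hT
  have hX : (RatFunc.X : RatFunc (ZMod q)) ≠ 0 := RatFunc.X_ne_zero
  have powq : ∀ u : RatFunc (ZMod q), u ^ q = u * (u ^ n) ^ 2 := by
    intro u
    have e1 : u ^ q = u ^ (2 * n + 1) := congrArg (fun m => u ^ m) hn
    rw [e1]; ring
  have frob : ∀ u : RatFunc (ZMod q), (u ^ 3 + 6 * u ^ 2 - 3 * u) ^ q =
      (u ^ q) ^ 3 + 6 * (u ^ q) ^ 2 - 3 * (u ^ q) := by
    intro u
    rw [← frobenius_def (R := RatFunc (ZMod q)) q, ← frobenius_def (R := RatFunc (ZMod q)) q]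
    simp only [map_sub, map_add, map_mul, map_pow, map_ofNat]
  set L := lam (ZMod q) with hLdef
  have hw : L ^ q = (RatFunc.X ^ q) ^ 3 + 6 * (RatFunc.X ^ q) ^ 2 - 3 * (RatFunc.X ^ q) := by
    rw [hLdef, ← frob]; rfl
  cases R with
  | zero => exact absurd rfl hR
  | some x y h =>
    have hgx' : x / L = g ^ q := hgx
    have hx : x = L * g ^ q := by rw [← hgx']; field_simp
    obtain ⟨Y, hY⟩ : ∃ Y, y = L ^ 2 * Y := ⟨y / L ^ 2, by field_simp⟩
    have he := eqn h
    rw [hx, hY] at he
    have he2 : L * Y ^ 2 = (g ^ 3 + 6 * g ^ 2 - 3 * g) ^ q := by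
      rw [frob]
      apply mul_left_cancel₀ (pow_ne_zero 3 hL)
      linear_combination he
    have hcase : g = RatFunc.X ∨ g = -3 / RatFunc.X := by
      by_cases hY0 : Y = 0
      · have h0 : g ^ 3 + 6 * g ^ 2 - 3 * g = 0 := by
          rw [hY0] at he2
          have : (g ^ 3 + 6 * g ^ 2 - 3 * g) ^ q = 0 := by rw [← he2]; ring
          exact pow_eq_zero_iff (by omega) |>.1 this
        exact gcl h2 h3 g 0 hg (by rw [h0]; ring)
      · apply gcl h2 h3 g ((g ^ 3 + 6 * g ^ 2 - 3 * g) ^ (n + 1) / Y) hg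
        rw [div_pow, eq_div_iff (pow_ne_zero 2 hY0), ← pow_mul]
        have : (g ^ 3 + 6 * g ^ 2 - 3 * g) ^ ((n + 1) * 2) =
            (g ^ 3 + 6 * g ^ 2 - 3 * g) * (g ^ 3 + 6 * g ^ 2 - 3 * g) ^ q := by
          rw [powq (g ^ 3 + 6 * g ^ 2 - 3 * g)]; ring
        rw [this, ← he2]; ring
    rcases hcase with hgX | hgX
    · -- `g = X`
      have h0 : L * Y ^ 2 = L * (L ^ n) ^ 2 := by
        rw [he2, hgX]
        have : (RatFunc.X ^ 3 + 6 * RatFunc.X ^ 2 - 3 * RatFunc.X : RatFunc (ZMod q)) = L := rfl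
        rw [this]
        rw [powq]
      have h1 : Y ^ 2 = (L ^ n) ^ 2 := mul_left_cancel₀ hL h0
      rcases sq_eq_sq_iff_eq_or_eq_neg.1 h1 with h5 | h5
      · left
        rw [hΦ]
        exact some_eq _ _ (by rw [hx, hgX]) (by rw [hY, h5])
      · right; left
        obtain ⟨h', e'⟩ := neg_mk hΦn
        rw [hΦ, e']
        exact some_eq _ _ (by rw [hx, hgX]) (by rw [hY, h5]; ring)
    · -- `g = -3/X`
      set w : RatFunc (ZMod q) := RatFunc.X ^ q with hwdef
      have hw0 : w ≠ 0 := pow_ne_zero _ hX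
      have hgq : g ^ q = -3 / w := by
        rw [hgX, hwdef, ← frobenius_def (R := RatFunc (ZMod q)) q,
          ← frobenius_def (R := RatFunc (ZMod q)) q, map_div₀, map_neg, map_ofNat]
      have hrel : L * (L ^ n) ^ 2 = w ^ 3 + 6 * w ^ 2 - 3 * w := by
        rw [← hw, powq]
      have h0 : L * Y ^ 2 = L * (3 * L ^ n / w ^ 2) ^ 2 := by
        rw [he2, frob, hgq]
        have : L * (3 * L ^ n / w ^ 2) ^ 2 = 9 * (L * (L ^ n) ^ 2) / w ^ 4 := by
          field_simp; ring
        rw [this, hrel]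
        field_simp
        ring
      have h1 : Y ^ 2 = (3 * L ^ n / w ^ 2) ^ 2 := mul_left_cancel₀ hL h0
      have hne : L * w ≠ L * 0 := by
        rw [mul_zero]; exact mul_ne_zero hL hw0
      rcases sq_eq_sq_iff_eq_or_eq_neg.1 h1 with h5 | h5
      · right; right; left
        rw [hΦ, hT]
        obtain ⟨h6, e6⟩ := add_mk hΦn hTn hne (L * L ^ n / w) (L * (-3 / w))
          (L ^ 2 * (3 * L ^ n / w ^ 2)) (by field_simp; ring)
          (by
            have : (L * L ^ n / w) ^ 2 = L * (L * (L ^ n) ^ 2) / w ^ 2 := by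
              field_simp
            rw [this, hrel]
            field_simp
            ring)
          (by field_simp; ring)
        rw [e6]
        exact some_eq _ _ (by rw [hx, hgq]) (by rw [hY, h5])
      · right; right; right
        obtain ⟨h', e'⟩ := neg_mk hΦn
        rw [hΦ, hT, e']
        obtain ⟨h6, e6⟩ := add_mk h' hTn hne (-(L * L ^ n / w)) (L * (-3 / w))
          (-(L ^ 2 * (3 * L ^ n / w ^ 2))) (by field_simp; ring)
          (by
            have : (-(L * L ^ n / w)) ^ 2 = L * (L * (L ^ n) ^ 2) / w ^ 2 := by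
              field_simp
            rw [this, hrel]
            field_simp
            ring)
          (by field_simp; ring)
        rw [e6]
        exact some_eq _ _ (by rw [hx, hgq]) (by rw [hY, h5]; ring)

end Pool.Agent.W672.LL
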